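import Pool.Agent.Q45.OI.Stm

/-!
# LEMX: no line of skew endomorphisms is stable
-/

set_option autoImplicit false
set_option linter.all false

open Module

namespace Pool.Agent.Q45.OI.JLEMX

open Pool.Agent.Q45.OI

/-- Parity of a 2-adic integer. -/
theorem par (c : ℤ_[2]) : (∃ d : ℤ_[2], c = 2 * d) ∨ ∃ d : ℤ_[2], c = 1 + 2 * d := by
  have hz : ∀ x : ZMod 2, x = 0 ∨ x = 1 := by
    intro x
    fin_cases x
    · left; rfl
    · right; rfl
  have hk : ∀ x : ℤ_[2], PadicInt.toZMod x = 0 → ∃ d : ℤ_[2], x = 2 * d := by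
    intro x hx
    have h1 : x ∈ RingHom.ker (PadicInt.toZMod : ℤ_[2] →+* ZMod 2) := hx
    rw [PadicInt.ker_toZMod, PadicInt.maximalIdeal_eq_span_p, Ideal.mem_span_singleton] at h1
    obtain ⟨d, hd⟩ := h1
    refine ⟨d, ?_⟩
    rw [hd]
    norm_num
  rcases hz (PadicInt.toZMod c) with h | h
  · left
    exact hk c h
  · right
    obtain ⟨d, hd⟩ := hk (c - 1) (by rw [map_sub, h, map_one, sub_self])
    exact ⟨d, by linear_combination hd⟩

theorem two_nu : ¬ IsUnit (2 : ℤ_[2]) := by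
  have h := PadicInt.p_nonunit (p := 2)
  simpa using h

theorem odd_unit (d : ℤ_[2]) : IsUnit (1 + 2 * d) := by
  by_contra h
  have h1 : (1 + 2 * d) ∈ IsLocalRing.maximalIdeal ℤ_[2] := h
  have h2 : (2 : ℤ_[2]) ∈ IsLocalRing.maximalIdeal ℤ_[2] := two_nu
  have h3 : (1 : ℤ_[2]) ∈ IsLocalRing.maximalIdeal ℤ_[2] := by
    have h4 := Ideal.sub_mem _ h1 (Ideal.mul_mem_right d _ h2)
    simpa using h4
  exact (IsLocalRing.maximalIdeal.isMaximal ℤ_[2]).ne_top ((Ideal.eq_top_iff_one _).mpr h3)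

/-- A 2-adic integer which is divisible by all the powers of two is zero. -/
theorem krull (x : ℤ_[2]) (h : ∀ n : ℕ, ∃ y : ℤ_[2], x = 2 ^ n * y) : x = 0 := by
  by_contra hx
  obtain ⟨n, hn⟩ := FiniteMultiplicity.of_not_isUnit two_nu hx
  exact hn (h (n + 1))

section

variable {M : Type} [AddCommGroup M] [Module ℤ_[2] M] [Module.Free ℤ_[2] M]
  [Module.Finite ℤ_[2] M]

theorem pow_ne (n : ℕ) : (2 : ℤ_[2]) ^ n ≠ 0 := pow_ne_zero n two_ne_zero

theorem cancel (n : ℕ) (X Y : End ℤ_[2] M) (h : (2 : ℤ_[2]) ^ n • X = (2 : ℤ_[2]) ^ n • Y) :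
    X = Y := smul_right_injective _ (pow_ne n) h

/-- A scalar endomorphism which is divisible. -/
theorem coord [Nontrivial M] (x y : ℤ_[2]) (X : End ℤ_[2] M)
    (h : x • (1 : End ℤ_[2] M) = y • X) : ∃ z, x = y * z := by
  let b := Module.Free.chooseBasis ℤ_[2] M
  obtain ⟨i⟩ : Nonempty (Module.Free.ChooseBasisIndex ℤ_[2] M) := b.index_nonempty
  have h1 := congrArg (fun Z : End ℤ_[2] M => b.repr (Z (b i)) i) h
  simp only [LinearMap.smul_apply, Module.End.one_apply, map_smul, Finsupp.smul_apply,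
    smul_eq_mul, Basis.repr_self, Finsupp.single_eq_same, mul_one] at h1
  exact ⟨_, h1⟩

/-- The first power which does not divide. -/
theorem prim (A : End ℤ_[2] M) (hA : A ≠ 0) :
    ∃ (s : ℕ) (A₁ : End ℤ_[2] M), A = (2 : ℤ_[2]) ^ s • A₁ ∧ ¬ Cg 1 A₁ 0 := by
  by_contra hcon
  push Not at hcon
  have h1 : ∀ n : ℕ, ∃ C : End ℤ_[2] M, A = (2 : ℤ_[2]) ^ n • C := by
    intro n
    induction n with
    | zero => exact ⟨A, by simp⟩
    | succ n ih =>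
      obtain ⟨C, hC⟩ := ih
      obtain ⟨D, hD⟩ := hcon n C hC
      refine ⟨D, ?_⟩
      rw [hC, hD, zero_add, smul_smul, pow_one, ← pow_succ]
  apply hA
  let b := Module.Free.chooseBasis ℤ_[2] M
  apply b.ext
  intro i
  rw [LinearMap.zero_apply]
  apply b.repr.map_eq_zero_iff.mp
  apply Finsupp.ext
  intro j
  rw [Finsupp.zero_apply]
  apply krull
  intro n
  obtain ⟨C, hC⟩ := h1 n
  refine ⟨b.repr (C (b i)) j, ?_⟩
  rw [hC, LinearMap.smul_apply, map_smul, Finsupp.smul_apply, smul_eq_mul]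

/-- The subgroup of the elements for which the scalar is `1` modulo `2 ^ m`. -/
def K (H : Subgroup (End ℤ_[2] M)ˣ) (A : End ℤ_[2] M) (m : ℕ) :
    Subgroup (End ℤ_[2] M)ˣ where
  carrier := {g | g ∈ H ∧ ∃ d : ℤ_[2], (g : End ℤ_[2] M) * A
    = (1 + 2 * (2 ^ m * d)) • (A * (g : End ℤ_[2] M))}
  one_mem' := ⟨H.one_mem, 0, by simp⟩
  mul_mem' := by
    rintro g g' ⟨hg, d, hd⟩ ⟨hg', d', hd'⟩
    refine ⟨H.mul_mem hg hg', d + d' + 2 * 2 ^ m * d * d', ?_⟩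
    rw [Units.val_mul, mul_assoc, hd', mul_smul_comm, ← mul_assoc (g : End ℤ_[2] M) A, hd,
      smul_mul_assoc, smul_smul, mul_assoc A]
    congr 1
    ring
  inv_mem' := by
    rintro g ⟨hg, d, hd⟩
    refine ⟨H.inv_mem hg, ?_⟩
    obtain ⟨u, hu⟩ := odd_unit (2 ^ m * d)
    have hu' : (1 + 2 * (2 ^ m * d)) * ((u⁻¹ : ℤ_[2]ˣ) : ℤ_[2]) = 1 := by
      rw [← hu, Units.mul_inv]
    refine ⟨- d * ((u⁻¹ : ℤ_[2]ˣ) : ℤ_[2]), ?_⟩
    have h1 : A * ((g⁻¹ : (End ℤ_[2] M)ˣ) : End ℤ_[2] M)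
        = (1 + 2 * (2 ^ m * d)) • (((g⁻¹ : (End ℤ_[2] M)ˣ) : End ℤ_[2] M) * A) := by
      have h2 : ((g⁻¹ : (End ℤ_[2] M)ˣ) : End ℤ_[2] M) * ((g : End ℤ_[2] M) * A)
        * ((g⁻¹ : (End ℤ_[2] M)ˣ) : End ℤ_[2] M) = ((g⁻¹ : (End ℤ_[2] M)ˣ) : End ℤ_[2] M)
        * ((1 + 2 * (2 ^ m * d)) • (A * (g : End ℤ_[2] M)))
        * ((g⁻¹ : (End ℤ_[2] M)ˣ) : End ℤ_[2] M) := by rw [hd]
      rw [← mul_assoc, Units.inv_mul, one_mul, mul_smul_comm, smul_mul_assoc, mul_assoc,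
        mul_assoc A, Units.mul_inv, mul_one] at h2
      exact h2
    rw [h1, smul_smul]
    have h3 : (1 + 2 * (2 ^ m * (-d * ((u⁻¹ : ℤ_[2]ˣ) : ℤ_[2])))) * (1 + 2 * (2 ^ m * d)) = 1 := by
      linear_combination (- 2 * 2 ^ m * d) * hu'
    rw [h3, one_smul]

/-- The relation of the parts. -/
theorem step1 [Nontrivial M] (g : (End ℤ_[2] M)ˣ) (A C : End ℤ_[2] M) (a c e : ℤ_[2]) (n : ℕ)
    (ha : a = 1 + 2 * e) (hA : A = a • (1 : End ℤ_[2] M) + (2 : ℤ_[2]) ^ n • C)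
    (hg : (g : End ℤ_[2] M) * A = c • (A * (g : End ℤ_[2] M))) :
    ∃ d : ℤ_[2], c = 1 + 2 ^ n * d ∧
      (g : End ℤ_[2] M) * C = (d * a) • (g : End ℤ_[2] M) + c • (C * (g : End ℤ_[2] M)) := by
  have h1 : ((c - 1) * a) • (g : End ℤ_[2] M)
      = (2 : ℤ_[2]) ^ n • ((g : End ℤ_[2] M) * C - c • (C * (g : End ℤ_[2] M))) := by
    rw [hA, mul_add, add_mul, mul_smul_comm, mul_smul_comm, smul_mul_assoc, smul_mul_assoc, mul_one,
      one_mul, smul_add, smul_smul, smul_comm c] at hg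
    rw [sub_mul, sub_smul, one_mul, smul_sub]
    rw [sub_eq_sub_iff_add_eq_add, add_comm _ (a • (g : End ℤ_[2] M)), hg]
  have h2 : ((c - 1) * a) • (1 : End ℤ_[2] M)
      = (2 : ℤ_[2]) ^ n • (((g : End ℤ_[2] M) * C - c • (C * (g : End ℤ_[2] M)))
        * ((g⁻¹ : (End ℤ_[2] M)ˣ) : End ℤ_[2] M)) := by
    rw [← smul_mul_assoc, ← h1, smul_mul_assoc, Units.mul_inv]
  obtain ⟨z, hz⟩ := coord _ _ _ h2
  obtain ⟨u, hu⟩ := odd_unit e
  rw [← ha] at hu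
  have hu' : a * ((u⁻¹ : ℤ_[2]ˣ) : ℤ_[2]) = 1 := by
    rw [← hu, Units.mul_inv]
  refine ⟨z * ((u⁻¹ : ℤ_[2]ˣ) : ℤ_[2]), ?_, ?_⟩
  · linear_combination ((u⁻¹ : ℤ_[2]ˣ) : ℤ_[2]) * hz - (c - 1) * hu'
  · have h3 : z * ((u⁻¹ : ℤ_[2]ˣ) : ℤ_[2]) * a = z := by
      linear_combination z * hu'
    rw [h3]
    rw [hz, mul_smul] at h1
    have h4 := cancel n _ _ h1
    rw [h4]
    abel

theorem K_le (H : Subgroup (End ℤ_[2] M)ˣ) (A : End ℤ_[2] M) (m : ℕ) : K H A m ≤ H :=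
  fun _ hg => hg.1

/-- The index of the subgroup. -/
theorem K_index (H : Subgroup (End ℤ_[2] M)ˣ) (A : End ℤ_[2] M) (m : ℕ)
    (h : ∀ g ∈ H, ∃ d : ℤ_[2], (g : End ℤ_[2] M) * A
      = (1 + 2 ^ (m + 1) * d) • (A * (g : End ℤ_[2] M))) :
    (K H A (m + 1)).relIndex H ∣ 2 := by
  have hev : ∀ g ∈ H, ∀ d : ℤ_[2], (g : End ℤ_[2] M) * A
      = (1 + 2 ^ (m + 1) * (2 * d)) • (A * (g : End ℤ_[2] M)) → g ∈ K H A (m + 1) := by
    intro g hg d hd
    refine ⟨hg, d, ?_⟩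
    rw [hd]
    congr 1
    ring
  by_cases hc : H ≤ K H A (m + 1)
  · have h1 : K H A (m + 1) = H := le_antisymm (K_le H A _) hc
    rw [h1, Subgroup.relIndex_self]
    exact one_dvd 2
  · obtain ⟨a, ha, haK⟩ := SetLike.not_le_iff_exists.mp hc
    have h2 : (K H A (m + 1)).relIndex H = 2 := by
      rw [Subgroup.relIndex_eq_two_iff_exists_notMem_and]
      refine ⟨a, ha, haK, ?_⟩
      intro b hb
      obtain ⟨d, hd⟩ := h a ha
      obtain ⟨d', hd'⟩ := h b hb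
      rcases par d with ⟨x, hx⟩ | ⟨x, hx⟩
      · exact absurd (hev a ha x (by rw [hd, hx])) haK
      rcases par d' with ⟨y, hy⟩ | ⟨y, hy⟩
      · right
        exact hev b hb y (by rw [hd', hy])
      · left
        apply hev (b * a) (H.mul_mem hb ha) (1 + x + y + 2 ^ m * (1 + 2 * x) * (1 + 2 * y))
        rw [Units.val_mul, mul_assoc, hd, mul_smul_comm, ← mul_assoc (b : End ℤ_[2] M) A, hd',
          smul_mul_assoc, smul_smul, mul_assoc A, hx, hy]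
        congr 1
        ring
    rw [h2]

/-- The endomorphism is scalar modulo all the powers. -/
theorem approx [Nontrivial M] (H : Subgroup (End ℤ_[2] M)ˣ)
    (hyp : ∀ H' : Subgroup (End ℤ_[2] M)ˣ, H' ≤ H → H'.relIndex H ∣ 2 → ∀ A : End ℤ_[2] M,
      (∀ g ∈ H', Cg 1 ((g : End ℤ_[2] M) * A) (A * (g : End ℤ_[2] M))) → Cg 1 A 0 ∨ Cg 1 A 1)
    (A : End ℤ_[2] M) (hA0 : ¬ Cg 1 A 0)
    (hA : ∀ g ∈ H, ∃ c : ℤ_[2], (g : End ℤ_[2] M) * A = c • (A * (g : End ℤ_[2] M))) (n : ℕ) :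
    ∃ (a : ℤ_[2]) (C : End ℤ_[2] M), (∃ e, a = 1 + 2 * e) ∧
      A = a • (1 : End ℤ_[2] M) + (2 : ℤ_[2]) ^ (n + 1) • C := by
  induction n with
  | zero =>
    have h1 : Cg 1 A 0 ∨ Cg 1 A 1 := by
      apply hyp H le_rfl (by rw [Subgroup.relIndex_self]; exact one_dvd 2) A
      intro g hg
      obtain ⟨c, hc⟩ := hA g hg
      rcases par c with ⟨d, hd⟩ | ⟨d, hd⟩
      · exfalso
        apply hA0
        refine ⟨d • (((g⁻¹ : (End ℤ_[2] M)ˣ) : End ℤ_[2] M) * (A * (g : End ℤ_[2] M))), ?_⟩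
        rw [zero_add, smul_smul, pow_one, ← hd, ← mul_smul_comm, ← hc, ← mul_assoc, Units.inv_mul,
          one_mul]
      · refine ⟨d • (A * (g : End ℤ_[2] M)), ?_⟩
        rw [hc, hd, smul_smul, pow_one, add_smul, one_smul]
    rcases h1 with h1 | h1
    · exact absurd h1 hA0
    · obtain ⟨C, hC⟩ := h1
      refine ⟨1, C, ⟨0, by simp⟩, ?_⟩
      rw [hC, one_smul]
  | succ m ih =>
    obtain ⟨a, C, ⟨e, he⟩, hC⟩ := ih
    have hst : ∀ g ∈ H, ∃ d : ℤ_[2], (g : End ℤ_[2] M) * A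
          = (1 + 2 ^ (m + 1) * d) • (A * (g : End ℤ_[2] M)) ∧
        (g : End ℤ_[2] M) * C = (d * a) • (g : End ℤ_[2] M)
          + (1 + 2 ^ (m + 1) * d) • (C * (g : End ℤ_[2] M)) := by
      intro g hg
      obtain ⟨c, hc⟩ := hA g hg
      obtain ⟨d, hd, hd'⟩ := step1 g A C a c e (m + 1) he hC hc
      refine ⟨d, ?_, ?_⟩
      · rw [hc, hd]
      · rw [hd', hd]
    have h1 : Cg 1 C 0 ∨ Cg 1 C 1 := by
      apply hyp (K H A (m + 1)) (K_le H A _)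
      · apply K_index
        intro g hg
        obtain ⟨d, hd, -⟩ := hst g hg
        exact ⟨d, hd⟩
      · intro g hg
        obtain ⟨hgH, d', hd'⟩ := hg
        obtain ⟨x, hx, hx'⟩ := step1 g A C a _ e (m + 1) he hC hd'
        have hx2 : x = 2 * d' := by
          have h3 : (2 : ℤ_[2]) ^ (m + 1) * x = 2 ^ (m + 1) * (2 * d') := by
            linear_combination - hx
          exact mul_left_cancel₀ (pow_ne (m + 1)) h3
        refine ⟨(d' * a) • (g : End ℤ_[2] M) + (2 ^ (m + 1) * d') • (C * (g : End ℤ_[2] M)), ?_⟩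
        rw [hx', hx2, smul_add, smul_smul, smul_smul, add_smul, one_smul, pow_one]
        have h4 : (2 : ℤ_[2]) * (d' * a) = 2 * d' * a := by ring
        rw [h4]
        abel
    rcases h1 with ⟨D, hD⟩ | ⟨D, hD⟩
    · refine ⟨a, D, ⟨e, he⟩, ?_⟩
      rw [hC, hD, zero_add, smul_smul, ← pow_add]
    · refine ⟨a + 2 ^ (m + 1), D, ⟨e + 2 ^ m, ?_⟩, ?_⟩
      · rw [he]
        ring
      · rw [hC, hD, smul_add, smul_smul, ← pow_add, add_smul, add_assoc, add_assoc]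

end

theorem main : LemX := by
  intro M _ _ _ _ H B hB hyp A₀ hso hst
  by_contra hne
  obtain ⟨s, A, hA, hA0⟩ := prim A₀ hne
  have hnt : Nontrivial M := by
    by_contra h
    rw [not_nontrivial_iff_subsingleton] at h
    apply hne
    exact Subsingleton.elim _ _
  have hst' : ∀ g ∈ H, ∃ c : ℤ_[2], (g : End ℤ_[2] M) * A = c • (A * (g : End ℤ_[2] M)) := by
    intro g hg
    obtain ⟨c, hc⟩ := hst g hg
    refine ⟨c, ?_⟩
    rw [hA, mul_smul_comm, smul_mul_assoc, smul_comm c] at hc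
    have h1 := cancel s _ _ hc
    rw [← smul_mul_assoc, ← h1, mul_assoc, Units.inv_mul, mul_one]
  have hso' : InSo B A := by
    intro x y
    have h1 := hso x y
    rw [hA] at h1
    simp only [LinearMap.smul_apply, map_smul, smul_eq_mul] at h1
    rw [← mul_add] at h1
    exact (mul_eq_zero.mp h1).resolve_left (pow_ne s)
  apply hB
  apply LinearMap.ext
  intro x
  apply LinearMap.ext
  intro y
  rw [LinearMap.zero_apply, LinearMap.zero_apply]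
  apply krull
  intro n
  obtain ⟨a, C, ⟨e, he⟩, hC⟩ := approx H hyp A hA0 hst' n
  have h1 := hso' x y
  rw [hC] at h1
  simp only [LinearMap.smul_apply, LinearMap.add_apply, Module.End.one_apply, map_smul, map_add,
    smul_eq_mul] at h1
  obtain ⟨u, hu⟩ := odd_unit e
  rw [← he] at hu
  have hu' : a * ((u⁻¹ : ℤ_[2]ˣ) : ℤ_[2]) = 1 := by
    rw [← hu, Units.mul_inv]
  refine ⟨-(((u⁻¹ : ℤ_[2]ˣ) : ℤ_[2]) * (B (C x) y + B x (C y))), ?_⟩
  have h2 : (2 : ℤ_[2]) * (B x y) = 2 * (2 ^ n * -(((u⁻¹ : ℤ_[2]ˣ) : ℤ_[2])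
      * (B (C x) y + B x (C y)))) := by
    linear_combination ((u⁻¹ : ℤ_[2]ˣ) : ℤ_[2]) * h1 - 2 * (B x y) * hu'
  exact mul_left_cancel₀ two_ne_zero h2

end Pool.Agent.Q45.OI.JLEMX
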