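import Pool.Agent.Q45.OI.Stm

/-!
# ORTH: the orthogonal complement of a submodule of corank one in the skew endomorphisms
-/

set_option autoImplicit false
set_option linter.all false

open Module

namespace Pool.Agent.Q45.OI.JORTH

open Pool.Agent.Q45.OI

/-- The trace form is nondegenerate on the skew endomorphisms. -/
theorem nondeg {M : Type} [AddCommGroup M] [Module ℤ_[2] M] [Module.Free ℤ_[2] M]
    [Module.Finite ℤ_[2] M] (B : M →ₗ[ℤ_[2]] M →ₗ[ℤ_[2]] ℤ_[2]) (hs : ∀ x y, B x y = B y x)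
    (hn : ∀ x, (∀ y, B x y = 0) → x = 0) (A : End ℤ_[2] M) (hA : InSo B A)
    (h : ∀ A', InSo B A' → LinearMap.trace ℤ_[2] M (A * A') = 0) : A = 0 := by
  apply LinearMap.ext
  intro y
  rw [LinearMap.zero_apply]
  apply hn
  intro x
  have hE : InSo B ((B x).smulRight y - (B y).smulRight x) := by
    intro u v
    simp only [LinearMap.sub_apply, LinearMap.smulRight_apply, map_sub, map_smul,
      LinearMap.smul_apply, smul_eq_mul]
    rw [hs u y, hs u x]
    ring
  have h1 := h _ hE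
  have h2 : A * ((B x).smulRight y - (B y).smulRight x)
      = (B x).smulRight (A y) - (B y).smulRight (A x) := by
    apply LinearMap.ext
    intro v
    simp only [Module.End.mul_apply, LinearMap.sub_apply, LinearMap.smulRight_apply, map_sub,
      map_smul]
  rw [h2, map_sub, LinearMap.trace_smulRight, LinearMap.trace_smulRight] at h1
  have h3 := hA y x
  have h4 := hs x (A y)
  have h5 : (2 : ℤ_[2]) * B (A y) x = 0 := by
    linear_combination h1 + h3 - h4
  rcases mul_eq_zero.mp h5 with h6 | h6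
  · exact absurd h6 (by norm_num)
  · exact h6

/-- Saturation for all the scalars. -/
theorem sat {N : Type} [AddCommGroup N] [Module ℤ_[2] N] (L : Submodule ℤ_[2] N)
    (h : ∀ A, (2 : ℤ_[2]) • A ∈ L → A ∈ L) (c : ℤ_[2]) (hc : c ≠ 0) (A : N) (hA : c • A ∈ L) :
    A ∈ L := by
  have h2 : ∀ (n : ℕ) (A : N), (2 : ℤ_[2]) ^ n • A ∈ L → A ∈ L := by
    intro n
    induction n with
    | zero =>
      intro A hA
      simpa using hA
    | succ n ih =>
      intro A hA
      apply ih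
      apply h
      rw [smul_smul, ← pow_succ']
      exact hA
  apply h2 (c.valuation) A
  obtain ⟨u, h3⟩ : ∃ u : ℤ_[2]ˣ, c = (u : ℤ_[2]) * (2 : ℤ_[2]) ^ c.valuation := by
    refine ⟨PadicInt.unitCoeff hc, ?_⟩
    have h3 := PadicInt.unitCoeff_spec hc
    simpa using h3
  have h4 : ((2 : ℤ_[2]) ^ c.valuation) • A = ((u⁻¹ : ℤ_[2]ˣ) : ℤ_[2]) • (c • A) := by
    rw [smul_smul]
    congr 1
    generalize c.valuation = k at h3
    rw [h3, ← mul_assoc, Units.inv_mul, one_mul]
  rw [h4]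
  exact L.smul_mem _ hA

theorem main : Orth := by
  intro M _ _ _ _ B hs hn S L hS hLS hne hsat hfr
  have hfree : ∀ X : Submodule ℤ_[2] (End ℤ_[2] M), Module.Free ℤ_[2] X := fun X => inferInstance
  have hfin : ∀ X : Submodule ℤ_[2] (End ℤ_[2] M), Module.Finite ℤ_[2] X := fun X => inferInstance
  -- the submodule `L` inside `S`
  set L' : Submodule ℤ_[2] S := L.comap S.subtype with hL'
  have hL'mem : ∀ A : S, A ∈ L' ↔ (A : End ℤ_[2] M) ∈ L := fun A => Iff.rfl
  have eL : L' ≃ₗ[ℤ_[2]] L := Submodule.comapSubtypeEquivOfLe hLS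
  have hfL : finrank ℤ_[2] L' = finrank ℤ_[2] L := eL.finrank_eq
  have hq := Submodule.finrank_quotient_add_finrank L'
  -- the quotient is torsion free
  haveI htf : Module.IsTorsionFree ℤ_[2] (S ⧸ L') := by
    refine ⟨?_⟩
    intro r hr x y hxy
    have hr0 : r ≠ 0 := hr.ne_zero
    obtain ⟨a, rfl⟩ := Submodule.Quotient.mk_surjective _ x
    obtain ⟨b, rfl⟩ := Submodule.Quotient.mk_surjective _ y
    have hxy' : (Submodule.Quotient.mk (r • a) : S ⧸ L') = Submodule.Quotient.mk (r • b) := hxy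
    rw [Submodule.Quotient.eq] at hxy' ⊢
    have h1 : r • (a - b) ∈ L' := by
      rw [smul_sub]
      exact hxy'
    rw [hL'mem] at h1 ⊢
    exact sat L hsat r hr0 _ h1
  haveI : Module.Free ℤ_[2] (S ⧸ L') := inferInstance
  have hqpos : finrank ℤ_[2] (S ⧸ L') ≠ 0 := by
    intro h0
    rw [Module.finrank_zero_iff] at h0
    rw [Submodule.Quotient.subsingleton_iff] at h0
    apply hne
    apply le_antisymm hLS
    intro A hA
    have h1 : (⟨A, hA⟩ : S) ∈ L' := by
      rw [h0]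
      exact Submodule.mem_top
    exact h1
  -- the trace form
  let T : End ℤ_[2] M →ₗ[ℤ_[2]] End ℤ_[2] M →ₗ[ℤ_[2]] ℤ_[2] :=
    (LinearMap.mul ℤ_[2] (End ℤ_[2] M)).compr₂ (LinearMap.trace ℤ_[2] M)
  have hT : ∀ A A', T A A' = LinearMap.trace ℤ_[2] M (A * A') := fun A A' => rfl
  let f : S →ₗ[ℤ_[2]] Dual ℤ_[2] L := L.subtype.dualMap ∘ₗ T ∘ₗ S.subtype
  have hf : ∀ (A : S) (A' : L), f A A' = LinearMap.trace ℤ_[2] M ((A : End ℤ_[2] M) * A') :=
    fun A A' => rfl
  have hlow : finrank ℤ_[2] S ≤ finrank ℤ_[2] L + finrank ℤ_[2] (LinearMap.ker f) := by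
    have h1 := Submodule.finrank_quotient_add_finrank (LinearMap.ker f)
    have h2 : finrank ℤ_[2] (S ⧸ LinearMap.ker f) = finrank ℤ_[2] (LinearMap.range f) :=
      f.quotKerEquivRange.finrank_eq
    have h3 : finrank ℤ_[2] (LinearMap.range f) ≤ finrank ℤ_[2] (Dual ℤ_[2] L) :=
      Submodule.finrank_le _
    have h4 : finrank ℤ_[2] (Dual ℤ_[2] L) = finrank ℤ_[2] L :=
      Module.finrank_linearMap_self ℤ_[2] ℤ_[2] L
    omega
  let g : LinearMap.ker f →ₗ[ℤ_[2]] L'.dualAnnihilator :=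
    (S.subtype.dualMap ∘ₗ T ∘ₗ S.subtype ∘ₗ (LinearMap.ker f).subtype).codRestrict
      L'.dualAnnihilator (by
        intro A
        rw [Submodule.mem_dualAnnihilator]
        intro X hX
        have h1 : f (A : S) = 0 := LinearMap.mem_ker.mp A.2
        have h2 := hf (A : S) ⟨(X : End ℤ_[2] M), hX⟩
        rw [h1] at h2
        exact h2.symm)
  have hg : ∀ (A : LinearMap.ker f) (X : S), (g A : Dual ℤ_[2] S) X
      = LinearMap.trace ℤ_[2] M (((A : S) : End ℤ_[2] M) * X) := fun A X => rfl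
  have hginj : Function.Injective g := by
    rw [injective_iff_map_eq_zero]
    intro A hA
    have h1 : ((A : S) : End ℤ_[2] M) = 0 := by
      apply nondeg B hs hn _ ((hS _).mp (A : S).2)
      intro A' hA'
      have h2 := hg A ⟨A', (hS _).mpr hA'⟩
      rw [hA] at h2
      exact h2.symm
    apply Subtype.ext
    apply Subtype.ext
    exact h1
  have hup : finrank ℤ_[2] (LinearMap.ker f) ≤ finrank ℤ_[2] (S ⧸ L') := by
    let e := L'.dualQuotEquivDualAnnihilator
    haveI : Module.Finite ℤ_[2] L'.dualAnnihilator := Module.Finite.equiv e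
    have h1 := LinearMap.finrank_le_finrank_of_injective hginj
    have h2 : finrank ℤ_[2] (Dual ℤ_[2] (S ⧸ L')) = finrank ℤ_[2] L'.dualAnnihilator :=
      e.finrank_eq
    have h3 : finrank ℤ_[2] (Dual ℤ_[2] (S ⧸ L')) = finrank ℤ_[2] (S ⧸ L') :=
      Module.finrank_linearMap_self ℤ_[2] ℤ_[2] (S ⧸ L')
    omega
  have hone : finrank ℤ_[2] (LinearMap.ker f) = 1 := by omega
  haveI : Module.Free ℤ_[2] S := hfree S
  haveI : Module.Free ℤ_[2] (LinearMap.ker f) := by
    obtain ⟨n, ⟨bb⟩⟩ := Submodule.nonempty_basis_of_pid (Module.finBasis ℤ_[2] S) (LinearMap.ker f)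
    exact Module.Free.of_basis bb
  let b := Module.finBasisOfFinrankEq ℤ_[2] (LinearMap.ker f) hone
  refine ⟨((b 0 : S) : End ℤ_[2] M), ?_, (hS _).mp (b 0 : S).2, ?_, ?_⟩
  · intro h0
    apply b.ne_zero 0
    apply Subtype.ext
    apply Subtype.ext
    exact h0
  · intro A' hA'
    have h1 : f (b 0 : S) = 0 := LinearMap.mem_ker.mp (b 0).2
    have h2 := hf (b 0 : S) ⟨A', hA'⟩
    rw [h1] at h2
    exact h2.symm
  · intro A hA hAL
    have hAk : (⟨A, (hS A).mpr hA⟩ : S) ∈ LinearMap.ker f := by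
      rw [LinearMap.mem_ker]
      apply LinearMap.ext
      intro A'
      rw [hf]
      exact hAL _ A'.2
    have h1 := b.sum_repr ⟨_, hAk⟩
    rw [Fin.sum_univ_one] at h1
    refine ⟨b.repr ⟨_, hAk⟩ 0, ?_⟩
    have h2 := congrArg (fun z : LinearMap.ker f => ((z : S) : End ℤ_[2] M)) h1
    exact h2.symm

end Pool.Agent.Q45.OI.JORTH
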