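import Pool.Agent.Q45.OI.StmB

/-!
# CLIFF: restriction of an irreducible representation to a normal subgroup with scalar commutant
-/

set_option autoImplicit false
set_option linter.all false

open Module

namespace Pool.Agent.Q45.OI.JCLIFF

open Pool.Agent.Q45.OI

section

variable {M : Type} [AddCommGroup M] [Module ℤ_[2] M] [Module.Free ℤ_[2] M]
  [Module.Finite ℤ_[2] M]

/-- submodules of the same rank -/
theorem lemA (U W : Submodule ℤ_[2] M) (h : U ≤ W)
    (hr : finrank ℤ_[2] W ≤ finrank ℤ_[2] U) : ∀ w ∈ W, ∃ r : ℕ, (2 : ℤ_[2]) ^ r • w ∈ U := by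
  intro w hw
  let U' : Submodule ℤ_[2] W := Submodule.comap W.subtype U
  have h1 : finrank ℤ_[2] (W ⧸ U') + finrank ℤ_[2] U' = finrank ℤ_[2] W :=
    Submodule.finrank_quotient_add_finrank U'
  have h2 : finrank ℤ_[2] U' = finrank ℤ_[2] U :=
    LinearEquiv.finrank_eq (Submodule.comapSubtypeEquivOfLe h)
  have h3 : finrank ℤ_[2] (W ⧸ U') = 0 := by omega
  have h4 : Module.IsTorsion ℤ_[2] (W ⧸ U') := finrank_eq_zero_iff_isTorsion.1 h3
  obtain ⟨a, ha⟩ := @h4 (Submodule.Quotient.mk ⟨w, hw⟩)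
  have ha0 : (a : ℤ_[2]) ≠ 0 := nonZeroDivisors.ne_zero a.2
  have h5 : (a : ℤ_[2]) • w ∈ U := by
    have h6 : Submodule.Quotient.mk ((a : ℤ_[2]) • (⟨w, hw⟩ : W)) = (0 : W ⧸ U') := by
      rw [Submodule.Quotient.mk_smul]
      exact ha
    rw [Submodule.Quotient.mk_eq_zero] at h6
    exact h6
  refine ⟨(a : ℤ_[2]).valuation, ?_⟩
  have h7 := PadicInt.unitCoeff_spec ha0
  have h8 : (2 : ℤ_[2]) ^ (a : ℤ_[2]).valuation =
      ((PadicInt.unitCoeff ha0)⁻¹ : ℤ_[2]ˣ) * (a : ℤ_[2]) := by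
    have h9 := congrArg (fun t : ℤ_[2] => ((PadicInt.unitCoeff ha0)⁻¹ : ℤ_[2]ˣ) * t) h7
    simp only [Units.inv_mul_cancel_left] at h9
    rw [h9]
    norm_cast
  rw [h8, mul_smul]
  exact U.smul_mem _ h5

/-- a common exponent -/
theorem lemB (S : Submodule ℤ_[2] M) (h : ∀ m : M, ∃ r : ℕ, (2 : ℤ_[2]) ^ r • m ∈ S) :
    ∃ r : ℕ, ∀ m : M, (2 : ℤ_[2]) ^ r • m ∈ S := by
  choose f hf using h
  obtain ⟨s, hs⟩ := (Module.Finite.fg_top : (⊤ : Submodule ℤ_[2] M).FG)
  refine ⟨∑ x ∈ s, f x, fun m => ?_⟩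
  have hm : m ∈ Submodule.span ℤ_[2] (s : Set M) := by
    rw [hs]
    exact Submodule.mem_top
  induction hm using Submodule.span_induction with
  | mem x hx =>
    have h1 : f x ≤ ∑ x ∈ s, f x :=
      Finset.single_le_sum (fun _ _ => Nat.zero_le _) (Finset.mem_coe.1 hx)
    rw [← Nat.sub_add_cancel h1, pow_add, mul_smul]
    exact S.smul_mem _ (hf x)
  | zero => rw [smul_zero]; exact S.zero_mem
  | add x y _ _ hx hy => rw [smul_add]; exact S.add_mem hx hy
  | smul a x _ hx => rw [smul_comm]; exact S.smul_mem _ hx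

theorem two_ne : (2 : ℤ_[2]) ≠ 0 := two_ne_zero

theorem tf (r : ℕ) (m : M) (h : (2 : ℤ_[2]) ^ r • m = 0) : m = 0 := by
  rcases smul_eq_zero.1 h with h | h
  · exact absurd h (pow_ne_zero _ two_ne)
  · exact h

end

/-- JOB OI-CLIFF -/
theorem main : Pool.Agent.Q45.OI.Cliff := by
  intro M G _ _ _ _ _ ρ N hN hirr hcom U hU
  have hmul : ∀ (S T : G) (m : M), (ρ S : End ℤ_[2] M) ((ρ T : End ℤ_[2] M) m) =
      (ρ (S * T) : End ℤ_[2] M) m := by
    intro S T m
    rw [map_mul, Units.val_mul, Module.End.mul_apply]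
  have hone : ∀ m : M, (ρ 1 : End ℤ_[2] M) m = m := by
    intro m
    rw [map_one, Units.val_one, Module.End.one_apply]
  by_cases hU0 : U = ⊥
  · exact Or.inl hU0
  right
  -- the stable submodules
  let St : Submodule ℤ_[2] M → Prop := fun W => ∀ T ∈ N, ∀ u ∈ W, (ρ T : End ℤ_[2] M) u ∈ W
  -- a submodule of minimal rank
  obtain ⟨U₁, ⟨h1le, h1st, h1ne⟩, h1min⟩ : ∃ U₁ : Submodule ℤ_[2] M,
      (U₁ ≤ U ∧ St U₁ ∧ U₁ ≠ ⊥) ∧ ∀ W : Submodule ℤ_[2] M, W ≤ U ∧ St W ∧ W ≠ ⊥ →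
        finrank ℤ_[2] U₁ ≤ finrank ℤ_[2] W := by
    obtain ⟨U₁, h1, h2⟩ := WellFounded.has_min
      (InvImage.wf (fun W : Submodule ℤ_[2] M => finrank ℤ_[2] W) Nat.lt_wfRel.wf)
      {W : Submodule ℤ_[2] M | W ≤ U ∧ St W ∧ W ≠ ⊥} ⟨U, le_rfl, hU, hU0⟩
    exact ⟨U₁, h1, fun W hW => not_lt.1 (h2 W hW)⟩
  -- a maximal stable submodule which meets `U₁` trivially
  obtain ⟨W, ⟨hWst, hWd⟩, hWmax⟩ : ∃ W : Submodule ℤ_[2] M, (St W ∧ ∀ x ∈ U₁, x ∈ W → x = 0) ∧
      ∀ W' : Submodule ℤ_[2] M, (St W' ∧ ∀ x ∈ U₁, x ∈ W' → x = 0) → ¬ W < W' := by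
    obtain ⟨W, h1, h2⟩ := WellFounded.has_min (wellFounded_gt (α := Submodule ℤ_[2] M))
      {W : Submodule ℤ_[2] M | St W ∧ ∀ x ∈ U₁, x ∈ W → x = 0}
      ⟨⊥, fun T _ u hu => by
        rw [Submodule.mem_bot] at hu ⊢
        rw [hu, map_zero], fun x _ hx => (Submodule.mem_bot _).1 hx⟩
    exact ⟨W, h1, fun W' hW' => h2 W' hW'⟩
  have hSst : St (U₁ ⊔ W) := by
    intro T hT u hu
    obtain ⟨a, ha, b, hb, rfl⟩ := Submodule.mem_sup.1 hu
    rw [map_add]
    exact Submodule.add_mem_sup (h1st T hT a ha) (hWst T hT b hb)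
  -- all translates of `U₁` are virtually contained in `U₁ ⊔ W`
  have key : ∀ (T : G) (u : M), u ∈ U₁ → ∃ r : ℕ,
      (2 : ℤ_[2]) ^ r • (ρ T : End ℤ_[2] M) u ∈ U₁ ⊔ W := by
    intro T
    -- the part of `U₁` mapped into the sum
    let Y : Submodule ℤ_[2] M := U₁ ⊓ Submodule.comap (ρ T : End ℤ_[2] M) (U₁ ⊔ W)
    have hYst : St Y := by
      intro S hS u hu
      refine ⟨h1st S hS u hu.1, ?_⟩
      show (ρ T : End ℤ_[2] M) ((ρ S : End ℤ_[2] M) u) ∈ U₁ ⊔ W
      have h2 : (ρ T : End ℤ_[2] M) ((ρ S : End ℤ_[2] M) u) =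
          (ρ (T * S * T⁻¹) : End ℤ_[2] M) ((ρ T : End ℤ_[2] M) u) := by
        rw [hmul, hmul, inv_mul_cancel_right]
      rw [h2]
      exact hSst _ (hN.conj_mem S hS T) _ hu.2
    by_cases hY : Y = ⊥
    · -- then `W` could be enlarged
      exfalso
      have hY' : ∀ u ∈ U₁, (ρ T : End ℤ_[2] M) u ∈ U₁ ⊔ W → u = 0 := by
        intro u hu h
        have h2 : u ∈ Y := ⟨hu, h⟩
        rw [hY] at h2
        exact (Submodule.mem_bot _).1 h2
      let Z : Submodule ℤ_[2] M := Submodule.map (ρ T : End ℤ_[2] M) U₁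
      have hZst : St Z := by
        intro S hS z hz
        obtain ⟨u, hu, rfl⟩ := Submodule.mem_map.1 hz
        refine Submodule.mem_map.2 ⟨(ρ (T⁻¹ * S * T) : End ℤ_[2] M) u, ?_, ?_⟩
        · refine h1st _ ?_ u hu
          have h2 := hN.conj_mem S hS T⁻¹
          rwa [inv_inv] at h2
        · rw [hmul, hmul]
          congr 3
          group
      refine hWmax (W ⊔ Z) ⟨?_, ?_⟩ ?_
      · intro S hS u hu
        obtain ⟨a, ha, b, hb, rfl⟩ := Submodule.mem_sup.1 hu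
        rw [map_add]
        exact Submodule.add_mem_sup (hWst S hS a ha) (hZst S hS b hb)
      · intro x hx hxW
        obtain ⟨a, ha, b, hb, rfl⟩ := Submodule.mem_sup.1 hxW
        obtain ⟨u, hu, rfl⟩ := Submodule.mem_map.1 hb
        have h2 : (ρ T : End ℤ_[2] M) u ∈ U₁ ⊔ W := by
          have h3 : (ρ T : End ℤ_[2] M) u = (a + (ρ T : End ℤ_[2] M) u) + (-a) := by abel
          rw [h3]
          exact Submodule.add_mem_sup hx (W.neg_mem ha)
        have h3 := hY' u hu h2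
        rw [h3, map_zero, add_zero] at hx ⊢
        exact hWd a hx ha
      · refine lt_of_le_of_ne le_sup_left ?_
        intro he
        obtain ⟨u, hu, hu0⟩ := (Submodule.ne_bot_iff _).1 h1ne
        apply hu0
        apply hY' u hu
        apply Submodule.mem_sup_right
        rw [he]
        exact Submodule.mem_sup_right (Submodule.mem_map.2 ⟨u, hu, rfl⟩)
    · intro u hu
      have h2 := h1min Y ⟨inf_le_left.trans h1le, hYst, hY⟩
      obtain ⟨r, hr⟩ := lemA Y U₁ inf_le_left h2 u hu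
      refine ⟨r, ?_⟩
      have h3 : (ρ T : End ℤ_[2] M) ((2 : ℤ_[2]) ^ r • u) ∈ U₁ ⊔ W := hr.2
      rwa [map_smul] at h3
  -- the largest stable submodule virtually contained in the sum
  let Q : Submodule ℤ_[2] M :=
    { carrier := {m | ∀ T, ∃ r : ℕ, (2 : ℤ_[2]) ^ r • (ρ T : End ℤ_[2] M) m ∈ U₁ ⊔ W}
      add_mem' := by
        intro a b ha hb T
        obtain ⟨r, hr⟩ := ha T
        obtain ⟨s, hs⟩ := hb T
        refine ⟨r + s, ?_⟩
        rw [map_add, smul_add]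
        refine Submodule.add_mem _ ?_ ?_
        · rw [add_comm, pow_add, mul_smul]
          exact Submodule.smul_mem _ _ hr
        · rw [pow_add, mul_smul]
          exact Submodule.smul_mem _ _ hs
      zero_mem' := by
        intro T
        refine ⟨0, ?_⟩
        rw [map_zero, smul_zero]
        exact Submodule.zero_mem _
      smul_mem' := by
        intro c m hm T
        obtain ⟨r, hr⟩ := hm T
        refine ⟨r, ?_⟩
        rw [map_smul, smul_comm]
        exact Submodule.smul_mem _ _ hr }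
  have hQ : ∀ m : M, ∃ r : ℕ, (2 : ℤ_[2]) ^ r • m ∈ U₁ ⊔ W := by
    have h2 : ∀ T, ∀ u ∈ Q, (ρ T : End ℤ_[2] M) u ∈ Q := by
      intro T u hu S
      obtain ⟨r, hr⟩ := hu (S * T)
      refine ⟨r, ?_⟩
      rw [hmul]
      exact hr
    rcases hirr Q h2 with h3 | ⟨r, hr⟩
    · exfalso
      obtain ⟨u, hu, hu0⟩ := (Submodule.ne_bot_iff _).1 h1ne
      apply hu0
      have h4 : u ∈ Q := fun T => key T u hu
      rw [h3] at h4
      exact (Submodule.mem_bot _).1 h4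
    · intro m
      obtain ⟨s, hs⟩ := hr m 1
      refine ⟨s + r, ?_⟩
      rw [hone] at hs
      rw [pow_add, mul_smul]
      exact hs
  obtain ⟨r, hr⟩ := lemB _ hQ
  -- the projection
  have hdec : ∀ m : M, ∃ u ∈ U₁, (2 : ℤ_[2]) ^ r • m - u ∈ W := by
    intro m
    obtain ⟨a, ha, b, hb, hab⟩ := Submodule.mem_sup.1 (hr m)
    refine ⟨a, ha, ?_⟩
    rw [← hab, add_sub_cancel_left]
    exact hb
  choose f hf hfW using hdec
  have huniq : ∀ (x u u' : M), u ∈ U₁ → u' ∈ U₁ → x - u ∈ W → x - u' ∈ W → u = u' := by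
    intro x u u' hu hu' h h'
    have h2 : u - u' ∈ W := by
      have h3 : u - u' = (x - u') - (x - u) := by abel
      rw [h3]
      exact W.sub_mem h' h
    exact sub_eq_zero.1 (hWd _ (U₁.sub_mem hu hu') h2)
  let P : End ℤ_[2] M :=
    { toFun := f
      map_add' := by
        intro a b
        refine huniq ((2 : ℤ_[2]) ^ r • (a + b)) _ _ (hf _) (U₁.add_mem (hf a) (hf b)) (hfW _) ?_
        have h3 : (2 : ℤ_[2]) ^ r • (a + b) - (f a + f b) =
            ((2 : ℤ_[2]) ^ r • a - f a) + ((2 : ℤ_[2]) ^ r • b - f b) := by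
          rw [smul_add]
          abel
        rw [h3]
        exact W.add_mem (hfW a) (hfW b)
      map_smul' := by
        intro c a
        refine huniq ((2 : ℤ_[2]) ^ r • (c • a)) _ _ (hf _) (U₁.smul_mem c (hf a)) (hfW _) ?_
        have h3 : (2 : ℤ_[2]) ^ r • (c • a) - c • f a = c • ((2 : ℤ_[2]) ^ r • a - f a) := by
          rw [smul_sub, smul_comm]
        rw [RingHom.id_apply, h3]
        exact W.smul_mem c (hfW a) }
  obtain ⟨c, hc⟩ := hcom P (by
    intro T hT m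
    show f ((ρ T : End ℤ_[2] M) m) = (ρ T : End ℤ_[2] M) (f m)
    refine huniq ((2 : ℤ_[2]) ^ r • (ρ T : End ℤ_[2] M) m) _ _ (hf _) (h1st T hT _ (hf m))
      (hfW _) ?_
    rw [← map_smul, ← map_sub]
    exact hWst T hT _ (hfW m))
  have hcr : c = (2 : ℤ_[2]) ^ r := by
    obtain ⟨u, hu, hu0⟩ := (Submodule.ne_bot_iff _).1 h1ne
    have h2 : f u = (2 : ℤ_[2]) ^ r • u := by
      refine huniq ((2 : ℤ_[2]) ^ r • u) _ _ (hf _) (U₁.smul_mem _ hu) (hfW _) ?_
      rw [sub_self]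
      exact W.zero_mem
    have h3 : c • u = (2 : ℤ_[2]) ^ r • u := (hc u).symm.trans h2
    exact smul_left_injective _ hu0 h3
  refine ⟨r, fun m => ?_⟩
  have h2 : f m = (2 : ℤ_[2]) ^ r • m := by
    rw [← hcr]
    exact hc m
  rw [← h2]
  exact h1le (hf m)

end Pool.Agent.Q45.OI.JCLIFF
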