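import Pool.Agent.Q45.OI.StmB

/-!
# COMM: submodules of the endomorphisms given by their reduction modulo two
-/

set_option autoImplicit false
set_option linter.all false

open Module

namespace Pool.Agent.Q45.OI.JCOMM

open Pool.Agent.Q45.OI

theorem two_jac : Ideal.span {(2 : ℤ_[2])} ≤ (⊥ : Ideal ℤ_[2]).jacobson := by
  rw [IsLocalRing.jacobson_eq_maximalIdeal _ (bot_ne_top), PadicInt.maximalIdeal_eq_span_p]
  exact le_of_eq (by push_cast; rfl)

/-- JOB OI-COMM -/
theorem main : Pool.Agent.Q45.OI.Comm := by
  intro M E _ _ _ _ _ R hR C h1 hC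
  constructor
  · intro h
    have hle : C ≤ Submodule.span ℤ_[2] {(1 : End ℤ_[2] M)} := by
      refine Submodule.le_of_le_smul_of_le_jacobson_bot (I := Ideal.span {(2 : ℤ_[2])})
        (IsNoetherian.noetherian C) two_jac ?_
      intro A hA
      rcases h A hA with h0 | h0
      · obtain ⟨B, rfl⟩ := (hR A).1 h0
        exact Submodule.mem_sup_right
          (Submodule.smul_mem_smul (Ideal.mem_span_singleton_self _) (hC B hA))
      · have h2 : R (A - 1) = 0 := by rw [map_sub, map_one, h0, sub_self]
        obtain ⟨B, hB⟩ := (hR (A - 1)).1 h2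
        have hBC : B ∈ C := hC B (by rw [← hB]; exact C.sub_mem hA h1)
        have h3 : A = 1 + (2 : ℤ_[2]) • B := by rw [← hB]; abel
        rw [h3]
        exact Submodule.add_mem_sup (Submodule.mem_span_singleton_self _)
          (Submodule.smul_mem_smul (Ideal.mem_span_singleton_self _) hBC)
    intro A hA
    obtain ⟨c, hc⟩ := Submodule.mem_span_singleton.1 (hle hA)
    refine ⟨c, fun m => ?_⟩
    rw [← hc]
    rfl
  · intro h
    have hle : (⊤ : Submodule ℤ_[2] (End ℤ_[2] M)) ≤ C := by
      refine Submodule.le_of_le_smul_of_le_jacobson_bot (I := Ideal.span {(2 : ℤ_[2])})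
        (IsNoetherian.noetherian _) two_jac ?_
      intro A _
      obtain ⟨A', hA', he⟩ := h A
      have h2 : R (A - A') = 0 := by rw [map_sub, he, sub_self]
      obtain ⟨B, hB⟩ := (hR (A - A')).1 h2
      have h3 : A = A' + (2 : ℤ_[2]) • B := by rw [← hB]; abel
      rw [h3]
      exact Submodule.add_mem_sup hA'
        (Submodule.smul_mem_smul (Ideal.mem_span_singleton_self _) Submodule.mem_top)
    exact fun A => hle Submodule.mem_top

end Pool.Agent.Q45.OI.JCOMM
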