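import Pool.Agent.Q45.OI.Stm

/-!
# Project OI, job OI-LARGE: groups which contain the orthogonal transvections are large
-/

set_option autoImplicit false

open Module QuadraticMap

namespace Pool.Agent.Q45.OI.JLARGE

open Pool.Agent.Q45.OI

theorem z01 : ∀ c : ZMod 2, c = 0 ∨ c = 1 := by decide

theorem zne {c : ZMod 2} (h : c ≠ 1) : c = 0 := (z01 c).resolve_right h

theorem zne' {c : ZMod 2} (h : c ≠ 0) : c = 1 := (z01 c).resolve_left h

theorem zadd (c : ZMod 2) : c + c = 0 := CharTwo.add_self_eq_zero c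

section basic
variable {V : Type} [AddCommGroup V] [Module (ZMod 2) V] (Q : QuadraticForm (ZMod 2) V)

theorem vadd (x : V) : x + x = 0 := by
  have h : (1 : ZMod 2) • x + (1 : ZMod 2) • x = 0 := by
    rw [← add_smul, show (1 : ZMod 2) + 1 = 0 from rfl, zero_smul]
  rwa [one_smul] at h

theorem veq {x y : V} (h : x + y = 0) : x = y := by
  have h1 : x + y + y = y := by rw [h, zero_add]
  rwa [add_assoc, vadd, add_zero] at h1

/-- the polar form -/
def bb (x y : V) : ZMod 2 := polar Q x y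

theorem bb_def (x y : V) : bb Q x y = polar Q x y := rfl

theorem bb_comm (x y : V) : bb Q x y = bb Q y x := polar_comm _ _ _

theorem bb_self (x : V) : bb Q x x = 0 := by
  rw [bb_def, QuadraticMap.polar_self, two_smul, zadd]

theorem bb_add_left (x y z : V) : bb Q (x + y) z = bb Q x z + bb Q y z :=
  QuadraticMap.polar_add_left Q x y z

theorem bb_add_right (x y z : V) : bb Q x (y + z) = bb Q x y + bb Q x z :=
  QuadraticMap.polar_add_right Q x y z

theorem bb_smul_left (c : ZMod 2) (x y : V) : bb Q (c • x) y = c * bb Q x y :=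
  QuadraticMap.polar_smul_left Q c x y

theorem bb_smul_right (c : ZMod 2) (x y : V) : bb Q x (c • y) = c * bb Q x y :=
  QuadraticMap.polar_smul_right Q c x y

theorem bb_zero_left (x : V) : bb Q 0 x = 0 := by
  have := bb_smul_left Q 0 0 x
  rwa [zero_smul, zero_mul] at this

theorem bb_zero_right (x : V) : bb Q x 0 = 0 := by rw [bb_comm, bb_zero_left]

theorem Q_add (x y : V) : Q (x + y) = Q x + Q y + bb Q x y := QuadraticMap.map_add Q x y

variable {Q} (hnd : ∀ v, (∀ w, bb Q v w = 0) → v = 0)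
include hnd

theorem beq {x y : V} (h : ∀ z, bb Q x z = bb Q y z) : x = y := by
  refine veq (hnd _ fun z => ?_)
  rw [bb_add_left, h z, zadd]

theorem ex1 {x : V} (hx : x ≠ 0) : ∃ u, bb Q x u = 1 := by
  by_contra h
  push Not at h
  exact hx (hnd x fun w => zne (h w))

theorem ex10 {x y : V} (hx : x ≠ 0) (hxy : x ≠ y) : ∃ p, bb Q x p = 1 ∧ bb Q y p = 0 := by
  by_contra h
  push Not at h
  have h' : ∀ p, bb Q x p = 1 → bb Q y p = 1 := fun p hp => zne' (h p hp)
  obtain ⟨u, hu⟩ := ex1 hnd hx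
  refine hxy (beq hnd fun z => ?_)
  rcases z01 (bb Q x z) with h0 | h1
  · have h2 := h' (z + u) (by rw [bb_add_right, h0, hu, zero_add])
    rw [bb_add_right, h' u hu] at h2
    have h3 : bb Q y z + 1 = 0 + 1 := by rw [h2, zero_add]
    rw [h0, add_right_cancel h3]
  · rw [h1, h' z h1]

theorem exd {x y : V} (hx : x ≠ 0) (hy : y ≠ 0) (hxy : x ≠ y) : ∃ p q, bb Q x p = 1 ∧
    bb Q y p = 0 ∧ bb Q x q = 0 ∧ bb Q y q = 1 := by
  obtain ⟨p, hp1, hp2⟩ := ex10 hnd hx hxy
  obtain ⟨q, hq1, hq2⟩ := ex10 hnd hy (Ne.symm hxy)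
  exact ⟨p, q, hp1, hp2, hq2, hq1⟩

theorem ex2 {x y : V} (hx : x ≠ 0) (hy : y ≠ 0) (hxy : x ≠ y) (c d : ZMod 2) :
    ∃ u, bb Q x u = c ∧ bb Q y u = d := by
  obtain ⟨p, q, h1, h2, h3, h4⟩ := exd hnd hx hy hxy
  refine ⟨c • p + d • q, ?_, ?_⟩
  · rw [bb_add_right, bb_smul_right, bb_smul_right, h1, h3]; ring
  · rw [bb_add_right, bb_smul_right, bb_smul_right, h2, h4]; ring

theorem span2 {x y w : V} (hx : x ≠ 0) (hy : y ≠ 0) (hxy : x ≠ y)
    (h : ∀ t, bb Q x t = 0 → bb Q y t = 0 → bb Q w t = 0) : ∃ c d : ZMod 2, w = c • x + d • y := by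
  obtain ⟨p, q, h1, h2, h3, h4⟩ := exd hnd hx hy hxy
  refine ⟨bb Q w p, bb Q w q, beq hnd fun z => ?_⟩
  have h5 := h (z + (bb Q x z • p + bb Q y z • q))
    (by rw [bb_add_right, bb_add_right, bb_smul_right, bb_smul_right, h1, h3, mul_one, mul_zero,
      add_zero, zadd])
    (by rw [bb_add_right, bb_add_right, bb_smul_right, bb_smul_right, h2, h4, mul_one, mul_zero,
      zero_add, zadd])
  rw [bb_add_right, bb_add_right, bb_smul_right, bb_smul_right] at h5
  rw [bb_add_left, bb_smul_left, bb_smul_left]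
  have h6 : bb Q w z = bb Q w z + (bb Q x z * bb Q w p + bb Q y z * bb Q w q) +
      (bb Q x z * bb Q w p + bb Q y z * bb Q w q) := by
    rw [add_assoc, zadd, add_zero]
  rw [h6, h5]
  ring

variable [Module.Finite (ZMod 2) V] (hn : 6 ≤ finrank (ZMod 2) V)
include hn

/-- two prescribed values -/
theorem N2 {x y : V} (hx : x ≠ 0) (hy : y ≠ 0) (hxy : x ≠ y) (c d : ZMod 2) :
    ∃ u, Q u = 1 ∧ bb Q x u = c ∧ bb Q y u = d := by
  by_contra hcon
  push Not at hcon
  have h0 : ∀ u, bb Q x u = c → bb Q y u = d → Q u = 0 := by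
    intro u h1 h2
    by_contra h3
    exact hcon u (zne' h3) h1 h2
  obtain ⟨u0, hu1, hu2⟩ := ex2 hnd hx hy hxy c d
  have hQ : ∀ t, bb Q x t = 0 → bb Q y t = 0 → Q t = bb Q u0 t := by
    intro t h1 h2
    have h3 := h0 (u0 + t) (by rw [bb_add_right, hu1, h1, add_zero])
      (by rw [bb_add_right, hu2, h2, add_zero])
    rw [Q_add, h0 u0 hu1 hu2, zero_add] at h3
    have h4 : Q t = Q t + bb Q u0 t + bb Q u0 t := by rw [add_assoc, zadd, add_zero]
    rw [h4, h3, zero_add]
  have hiso : ∀ t t', bb Q x t = 0 → bb Q y t = 0 → bb Q x t' = 0 → bb Q y t' = 0 →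
      bb Q t t' = 0 := by
    intro t t' h1 h2 h3 h4
    have h5 := hQ (t + t') (by rw [bb_add_right, h1, h3, add_zero])
      (by rw [bb_add_right, h2, h4, add_zero])
    rw [Q_add, hQ t h1 h2, hQ t' h3 h4, bb_add_right] at h5
    have h6 : bb Q t t' = (bb Q u0 t + bb Q u0 t') + ((bb Q u0 t + bb Q u0 t') + bb Q t t') := by
      rw [← add_assoc, zadd, zero_add]
    rw [h6, h5, zadd]
  -- dimension
  let φ : V →ₗ[ZMod 2] (ZMod 2 × ZMod 2) :=
    { toFun := fun t => (bb Q x t, bb Q y t)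
      map_add' := fun s t => by simp only [bb_add_right, Prod.mk_add_mk]
      map_smul' := fun c t => by
        simp only [bb_smul_right, Prod.smul_mk, smul_eq_mul, RingHom.id_apply] }
  have hker : LinearMap.ker φ ≤ Submodule.span (ZMod 2) ({x, y} : Set V) := by
    intro t ht
    have ht' : (bb Q x t, bb Q y t) = (0, 0) := ht
    obtain ⟨h1, h2⟩ := Prod.mk.inj ht'
    obtain ⟨c, d, hcd⟩ := span2 hnd hx hy hxy (w := t) (fun t' h3 h4 => hiso t t' h1 h2 h3 h4)
    rw [hcd]
    exact Submodule.mem_span_pair.2 ⟨c, d, rfl⟩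
  have hr := LinearMap.finrank_range_add_finrank_ker φ
  have h1 : finrank (ZMod 2) (LinearMap.range φ) ≤ 2 := by
    refine (Submodule.finrank_le _).trans ?_
    simp
  have h2 : finrank (ZMod 2) (LinearMap.ker φ) ≤ 2 := by
    refine (Submodule.finrank_mono hker).trans ?_
    classical
    have h3 := finrank_span_finset_le_card (R := ZMod 2) ({x, y} : Finset V)
    rw [Set.finrank, Finset.coe_pair] at h3
    exact h3.trans Finset.card_le_two
  omega

theorem N1 {x : V} (hx : x ≠ 0) (c : ZMod 2) : ∃ u, Q u = 1 ∧ bb Q x u = c := by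
  obtain ⟨p, hp⟩ := ex1 hnd hx
  have hp0 : p ≠ 0 := by
    rintro rfl
    rw [bb_zero_right] at hp
    exact absurd hp (by decide)
  have hpx : x ≠ p := by
    rintro rfl
    rw [bb_self] at hp
    exact absurd hp (by decide)
  obtain ⟨u, h1, h2, _⟩ := N2 hnd hn hx hp0 hpx c 0
  exact ⟨u, h1, h2⟩

theorem spanN (x : V) : x = 0 ∨ ∃ u u', Q u = 1 ∧ Q u' = 1 ∧ x = u + u' := by
  by_cases hx : x = 0
  · exact Or.inl hx
  · obtain ⟨u, h1, h2⟩ := N1 hnd hn hx (Q x)
    refine Or.inr ⟨u, x + u, h1, ?_, ?_⟩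
    · rw [Q_add, h1, h2]
      rcases z01 (Q x) with h | h <;> rw [h] <;> rfl
    · rw [add_comm x u, ← add_assoc, vadd, zero_add]

omit [Module.Finite (ZMod 2) V] hnd hn in
theorem ne0 {v : V} (h : Q v = 1) : v ≠ 0 := by
  rintro rfl
  rw [QuadraticMap.map_zero] at h
  exact absurd h (by decide)

theorem chain {P : V → Prop}
    (hs : ∀ u v, Q u = 1 → Q v = 1 → bb Q u v = 1 → P u → P v) {u : V} (hu : Q u = 1)
    (hP : P u) : ∀ v, Q v = 1 → P v := by
  intro v hv
  by_cases huv : u = v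
  · rw [← huv]; exact hP
  · obtain ⟨w, h1, h2, h3⟩ := N2 hnd hn (ne0 hu) (ne0 hv) huv 1 1
    exact hs w v h1 hv (by rw [bb_comm]; exact h3) (hs u w hu h1 h2 hP)

theorem topN {U : Submodule (ZMod 2) V} (h : ∀ v, Q v = 1 → v ∈ U) : U = ⊤ := by
  rw [Submodule.eq_top_iff']
  intro x
  rcases spanN hnd hn x with h1 | ⟨u, u', h1, h2, h3⟩
  · rw [h1]; exact U.zero_mem
  · rw [h3]; exact U.add_mem (h u h1) (h u' h2)

theorem extN {A B : V →ₗ[ZMod 2] V} (h : ∀ v, Q v = 1 → A v = B v) : A = B := by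
  ext x
  rcases spanN hnd hn x with h1 | ⟨u, u', h1, h2, h3⟩
  · rw [h1, map_zero, map_zero]
  · rw [h3, map_add, map_add, h u h1, h u' h2]

theorem star {A : V →ₗ[ZMod 2] V} (h : ∀ v, Q v = 1 → A v = 0 ∨ A v = v) : A = 0 ∨ A = 1 := by
  by_cases hex : ∃ v, Q v = 1 ∧ A v = 0
  · obtain ⟨v, hv, hv0⟩ := hex
    left
    refine extN hnd hn fun w hw => ?_
    rw [LinearMap.zero_apply]
    refine chain hnd hn (P := fun w => A w = 0) ?_ hv hv0 w hw
    intro u v hu hv huv hu0
    rcases h v hv with h1 | h1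
    · exact h1
    · exfalso
      have hQ : Q (u + v) = 1 := by rw [Q_add, hu, hv, huv]; rfl
      rcases h _ hQ with h2 | h2
      · rw [map_add, hu0, h1, zero_add] at h2
        exact ne0 hv h2
      · rw [map_add, hu0, h1] at h2
        exact ne0 hu (add_right_cancel h2).symm
  · push Not at hex
    right
    refine extN hnd hn fun w hw => ?_
    rcases h w hw with h1 | h1
    · exact absurd h1 (hex w hw)
    · rw [h1]; rfl

end basic

section wedge
variable {V : Type} [AddCommGroup V] [Module (ZMod 2) V] (Q : QuadraticForm (ZMod 2) V)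

/-- the wedge of two vectors as a skew endomorphism -/
def wd (x y : V) : V →ₗ[ZMod 2] V where
  toFun z := bb Q x z • y + bb Q y z • x
  map_add' z z' := by
    rw [bb_add_right, bb_add_right, add_smul, add_smul]
    abel
  map_smul' c z := by
    rw [bb_smul_right, bb_smul_right, mul_smul, mul_smul, RingHom.id_apply, smul_add]

theorem wd_apply (x y z : V) : wd Q x y z = bb Q x z • y + bb Q y z • x := rfl

theorem wd_comm (x y : V) : wd Q x y = wd Q y x := by
  ext z
  rw [wd_apply, wd_apply, add_comm]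

theorem wd_self (x : V) : wd Q x x = 0 := by
  ext z
  rw [wd_apply, vadd]
  rfl

theorem wd_add_right (x y z : V) : wd Q x (y + z) = wd Q x y + wd Q x z := by
  ext w
  rw [LinearMap.add_apply, wd_apply, wd_apply, wd_apply, bb_add_left, add_smul, smul_add]
  abel

theorem wd_zero_right (x : V) : wd Q x 0 = 0 := by
  ext w
  rw [wd_apply, bb_zero_left, smul_zero, zero_smul, add_zero]
  rfl

theorem wd_skew (x y v : V) : bb Q (wd Q x y v) v = 0 := by
  rw [wd_apply, bb_add_left, bb_smul_left, bb_smul_left, mul_comm, zadd]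

variable {Q}

theorem selfadj {A : V →ₗ[ZMod 2] V} (hA : ∀ v, bb Q (A v) v = 0) (v w : V) :
    bb Q (A v) w = bb Q v (A w) := by
  have h := hA (v + w)
  rw [map_add, bb_add_left, bb_add_right, bb_add_right, hA v, hA w, zero_add, add_zero] at h
  have h2 : bb Q (A v) w = bb Q (A v) w + bb Q (A w) v + bb Q (A w) v := by
    rw [add_assoc, zadd, add_zero]
  rw [h2, h, zero_add, bb_comm]

theorem genW [Module.Finite (ZMod 2) V] (hnd : ∀ v, (∀ w, bb Q v w = 0) → v = 0)
    {W : Submodule (ZMod 2) (V →ₗ[ZMod 2] V)}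
    (hW : ∀ x y, wd Q x y ∈ W) : ∀ (k : ℕ) (A : V →ₗ[ZMod 2] V), (∀ v, bb Q (A v) v = 0) →
      finrank (ZMod 2) V ≤ finrank (ZMod 2) (LinearMap.ker A) + k → A ∈ W := by
  intro k
  induction k with
  | zero =>
    intro A _ hk
    have h1 : LinearMap.ker A = ⊤ := Submodule.eq_top_of_finrank_eq
      (le_antisymm (Submodule.finrank_le _) (by simpa using hk))
    rw [LinearMap.ker_eq_top.1 h1]
    exact W.zero_mem
  | succ k ih =>
    intro A hA hk
    by_cases hA0 : A = 0
    · rw [hA0]; exact W.zero_mem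
    · obtain ⟨x, hx⟩ : ∃ x, A x ≠ 0 := by
        by_contra h
        push Not at h
        exact hA0 (LinearMap.ext h)
      obtain ⟨y, hy⟩ := ex1 hnd hx
      have hlt : LinearMap.ker A < LinearMap.ker (A + wd Q (A x) (A y)) := by
        refine lt_of_le_of_ne ?_ ?_
        · intro z hz
          have hz' : A z = 0 := hz
          rw [LinearMap.mem_ker, LinearMap.add_apply, wd_apply, selfadj hA, selfadj hA, hz',
            bb_zero_right, bb_zero_right, zero_smul, zero_smul, add_zero, add_zero]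
        · intro heq
          have hxk : x ∈ LinearMap.ker (A + wd Q (A x) (A y)) := by
            have e1 : bb Q (A y) x = 1 := by rw [selfadj hA, bb_comm]; exact hy
            rw [LinearMap.mem_ker, LinearMap.add_apply, wd_apply, hA x, e1, zero_smul, one_smul,
              zero_add, vadd]
          rw [← heq] at hxk
          exact hx hxk
      have hfr := Submodule.finrank_lt_finrank_of_lt hlt
      have hin := ih (A + wd Q (A x) (A y)) (fun v => by
        rw [LinearMap.add_apply, bb_add_left, hA v, wd_skew, add_zero]) (by omega)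
      have := W.sub_mem hin (hW (A x) (A y))
      rwa [add_sub_cancel_right] at this

end wedge

section main
variable {V : Type} [AddCommGroup V] [Module (ZMod 2) V] {Q : QuadraticForm (ZMod 2) V}
  [Module.Finite (ZMod 2) V]

/-- the first part: irreducibility -/
theorem p_irr (hnd : ∀ v, (∀ w, bb Q v w = 0) → v = 0) (hn : 6 ≤ finrank (ZMod 2) V)
    (Γ : Subgroup (V ≃ₗ[ZMod 2] V))
    (hΓ : ∀ v, Q v = 1 → ∃ t ∈ Γ, ∀ x, t x = x + bb Q x v • v)
    (U : Submodule (ZMod 2) V) (hU : ∀ g ∈ Γ, ∀ v ∈ U, g v ∈ U) : U = ⊥ ∨ U = ⊤ := by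
  by_cases h0 : U = ⊥
  · exact Or.inl h0
  · right
    obtain ⟨x, hxU, hx⟩ := (Submodule.ne_bot_iff U).1 h0
    have step : ∀ y ∈ U, ∀ v, Q v = 1 → bb Q y v = 1 → v ∈ U := by
      intro y hy v hv hyv
      obtain ⟨t, ht, ht'⟩ := hΓ v hv
      have h1 := hU t ht y hy
      rw [ht', hyv, one_smul] at h1
      have := U.sub_mem h1 hy
      rwa [add_sub_cancel_left] at this
    obtain ⟨u, hu, hxu⟩ := N1 hnd hn hx 1
    exact topN hnd hn (chain hnd hn (P := fun v => v ∈ U)
      (fun u v _ hv huv hP => step u hP v hv huv) hu (step x hxU u hu hxu))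

/-- the second part: the commutant of a subgroup of index at most two -/
theorem p_scal (hnd : ∀ v, (∀ w, bb Q v w = 0) → v = 0) (hn : 6 ≤ finrank (ZMod 2) V)
    (Γ : Subgroup (V ≃ₗ[ZMod 2] V))
    (hΓ : ∀ v, Q v = 1 → ∃ t ∈ Γ, ∀ x, t x = x + bb Q x v • v)
    (Γ' : Subgroup (V ≃ₗ[ZMod 2] V)) (_ : Γ' ≤ Γ) (hind : Γ'.relIndex Γ ∣ 2)
    (A : V →ₗ[ZMod 2] V) (hA : ∀ g ∈ Γ', ∀ v, A (g v) = g (A v)) : A = 0 ∨ A = 1 := by
  have hsq : ∀ g ∈ Γ, g * g ∈ Γ' := by
    intro g hg
    have h1 : (Γ'.subgroupOf Γ).index ∣ 2 := hind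
    have h2 : (⟨g, hg⟩ : Γ) * ⟨g, hg⟩ ∈ Γ'.subgroupOf Γ := by
      rcases (Nat.dvd_prime Nat.prime_two).1 h1 with h3 | h3
      · rw [Subgroup.index_eq_one.1 h3]; trivial
      · exact Subgroup.mul_self_mem_of_index_two h3 _
    exact h2
  have hpair : ∀ u v, Q u = 1 → Q v = 1 → bb Q u v = 1 → ∃ c d : ZMod 2, A u = c • u + d • v := by
    intro u v hu hv huv
    obtain ⟨t, ht, ht'⟩ := hΓ u hu
    obtain ⟨s, hs, hs'⟩ := hΓ v hv
    have hvu : bb Q v u = 1 := by rw [bb_comm]; exact huv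
    have hg : ∀ x, (t * s * (t * s)) x = x + (bb Q x u • u + (bb Q x u + bb Q x v) • v) := by
      intro x
      have e : ∀ x, (t * s) x = x + (bb Q x v • v + (bb Q x u + bb Q x v) • u) := by
        intro x
        rw [LinearEquiv.mul_apply, hs', ht', bb_add_left, bb_smul_left, hvu, mul_one]
        rw [add_assoc]
      rw [LinearEquiv.mul_apply, e, e, bb_add_left, bb_add_left, bb_smul_left, bb_smul_left,
        bb_add_left, bb_add_left, bb_smul_left, bb_smul_left, bb_self, bb_self, huv, hvu]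
      have h11 : (1 : ZMod 2) + 1 = 0 := rfl
      rcases z01 (bb Q x u) with h1 | h1 <;> rcases z01 (bb Q x v) with h2 | h2 <;>
        rw [h1, h2] <;>
        simp only [mul_one, mul_zero, add_zero, zero_add, h11, zero_smul, one_smul]
      · have : x + (v + u) + u = x + v + (u + u) := by abel
        rw [this, vadd, add_zero]
      · rw [add_assoc]
      · have : x + v + (v + u) = x + u + (v + v) := by abel
        rw [this, vadd, add_zero]
    have hx := hA _ (hsq (t * s) (Γ.mul_mem ht hs)) (u + v)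
    rw [hg, hg] at hx
    have e1 : bb Q (u + v) u = 1 := by rw [bb_add_left, bb_self, hvu, zero_add]
    have e2 : bb Q (u + v) v = 1 := by rw [bb_add_left, bb_self, huv, add_zero]
    have e3 : u + v + ((1 : ZMod 2) • u + ((1 : ZMod 2) + 1) • v) = v := by
      have : u + v + u = v + (u + u) := by abel
      rw [show (1 : ZMod 2) + 1 = 0 from rfl, zero_smul, add_zero, one_smul, this, vadd, add_zero]
    rw [e1, e2, e3, map_add] at hx
    refine ⟨bb Q (A u + A v) u, bb Q (A u + A v) u + bb Q (A u + A v) v, ?_⟩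
    have h3 : A v + (A u + A v) = A u := by
      have : A v + (A u + A v) = A u + (A v + A v) := by abel
      rw [this, vadd, add_zero]
    have h4 : A v + A v = A v + (A u + A v + (bb Q (A u + A v) u • u +
      (bb Q (A u + A v) u + bb Q (A u + A v) v) • v)) := by rw [← hx]
    rw [← add_assoc, h3, vadd] at h4
    exact veq h4.symm
  refine star hnd hn fun u hu => ?_
  obtain ⟨v, hv, huv⟩ := N1 hnd hn (ne0 hu) 1
  have huv' : u ≠ v := by
    rintro rfl
    rw [bb_self] at huv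
    exact absurd huv (by decide)
  obtain ⟨z, hz, hz1, hz2⟩ := N2 hnd hn (ne0 hu) (ne0 hv) huv' 0 0
  have huz : u ≠ z := by
    rintro rfl
    rw [bb_comm, huv] at hz2
    exact absurd hz2 (by decide)
  obtain ⟨v', hv', h1, h2⟩ := N2 hnd hn (ne0 hu) (ne0 hz) huz 1 1
  obtain ⟨c, d, hcd⟩ := hpair u v hu hv huv
  obtain ⟨c', d', hcd'⟩ := hpair u v' hu hv' h1
  have h5 : bb Q z (c • u + d • v) = bb Q z (c' • u + d' • v') := by rw [← hcd, ← hcd']
  have hzu : bb Q z u = 0 := by rw [bb_comm]; exact hz1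
  have hzv : bb Q z v = 0 := by rw [bb_comm]; exact hz2
  rw [bb_add_right, bb_add_right, bb_smul_right, bb_smul_right, bb_smul_right, bb_smul_right,
    hzu, hzv, h2, mul_zero, mul_zero, mul_zero, mul_one, zero_add, zero_add] at h5
  rw [← h5, zero_smul, add_zero] at hcd'
  rcases z01 c' with h | h
  · left; rw [hcd', h, zero_smul]
  · right; rw [hcd', h, one_smul]

omit [Module.Finite (ZMod 2) V] in
/-- MOVE for one transvection: the wedge of `u` and `A u`. -/
theorem lemM (Γ : Subgroup (V ≃ₗ[ZMod 2] V))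
    (hΓ : ∀ v, Q v = 1 → ∃ t ∈ Γ, ∀ x, t x = x + bb Q x v • v)
    (U : Submodule (ZMod 2) (V →ₗ[ZMod 2] V)) (hUs : ∀ A ∈ U, ∀ v, bb Q (A v) v = 0)
    (hU : ∀ g ∈ Γ, ∀ A ∈ U, ∀ A' : V →ₗ[ZMod 2] V, (∀ v, A' (g v) = g (A v)) → A' ∈ U)
    {A : V →ₗ[ZMod 2] V} (hA : A ∈ U) {u : V} (hu : Q u = 1) : wd Q u (A u) ∈ U := by
  obtain ⟨t, ht, ht'⟩ := hΓ u hu
  have hs := hUs A hA
  have h1 := hU t ht A hA (A + wd Q u (A u)) (by
    intro x
    rw [ht', ht', LinearMap.add_apply, wd_apply, map_add, map_smul, bb_add_right, bb_add_right,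
      bb_smul_right, bb_smul_right, bb_self, hs u, mul_zero, add_zero, add_zero,
      bb_comm Q (A u) x, ← selfadj hs x u, bb_comm Q u x]
    have : A x + bb Q x u • A u + (bb Q x u • A u + bb Q (A x) u • u) =
        A x + bb Q (A x) u • u + (bb Q x u • A u + bb Q x u • A u) := by abel
    rw [this, vadd, add_zero])
  have h2 := U.sub_mem h1 hA
  rwa [add_sub_cancel_left] at h2

/-- the third part for the polar form -/
theorem p_skew (hnd : ∀ v, (∀ w, bb Q v w = 0) → v = 0) (hn : 6 ≤ finrank (ZMod 2) V)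
    (Γ : Subgroup (V ≃ₗ[ZMod 2] V))
    (hΓ : ∀ v, Q v = 1 → ∃ t ∈ Γ, ∀ x, t x = x + bb Q x v • v)
    (U : Submodule (ZMod 2) (V →ₗ[ZMod 2] V)) (hUs : ∀ A ∈ U, ∀ v, bb Q (A v) v = 0)
    (hU : ∀ g ∈ Γ, ∀ A ∈ U, ∀ A' : V →ₗ[ZMod 2] V, (∀ v, A' (g v) = g (A v)) → A' ∈ U)
    (A : V →ₗ[ZMod 2] V) (hA : A ∈ U) (hA0 : A ≠ 0) (hA1 : A ≠ 1) :
    ∃ e : V →ₗ[ZMod 2] V, ∀ B : V →ₗ[ZMod 2] V, (∀ v, bb Q (B v) v = 0) →
      B ∈ U ⊔ Submodule.span (ZMod 2) {e} := by
  have c01 : (0 : ZMod 2) ≠ 1 := by decide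
  -- MOVE
  have move : ∀ u v w, Q u = 1 → bb Q v u = 1 → bb Q w u = 0 → wd Q v w ∈ U → wd Q u w ∈ U := by
    intro u v w hu h1 h2 h3
    have := lemM Γ hΓ U hUs hU h3 hu
    rwa [wd_apply, h1, h2, one_smul, zero_smul, add_zero] at this
  -- a first element
  obtain ⟨v0, w0, hv0, hw0, hne0, hb0, hU0⟩ : ∃ v w, Q v = 1 ∧ Q w = 1 ∧ v ≠ w ∧ bb Q v w = 0 ∧
      wd Q v w ∈ U := by
    have hex : ∃ v, Q v = 1 ∧ A v ≠ 0 ∧ A v ≠ v := by
      by_contra h
      push Not at h
      rcases star hnd hn (A := A) (fun v hv => by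
        by_cases h1 : A v = 0
        · exact Or.inl h1
        · exact Or.inr (h v hv h1)) with h1 | h1
      · exact hA0 h1
      · exact hA1 h1
    obtain ⟨v, hv, h1, h2⟩ := hex
    have h3 := lemM Γ hΓ U hUs hU hA hv
    have h4 : bb Q v (A v) = 0 := by rw [bb_comm]; exact hUs A hA v
    rcases z01 (Q (A v)) with h5 | h5
    · refine ⟨v, A v + v, hv, ?_, ?_, ?_, ?_⟩
      · rw [Q_add, h5, hv, bb_comm, h4]; rfl
      · intro h6
        have h7 : (0 : V) + v = A v + v := by rw [zero_add]; exact h6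
        exact h1 (add_right_cancel h7).symm
      · rw [bb_add_right, h4, bb_self, add_zero]
      · rw [wd_add_right, wd_self, add_zero]; exact h3
    · exact ⟨v, A v, hv, h5, Ne.symm h2, h4, h3⟩
  -- change of one entry
  have S2 : ∀ v v' w, Q v = 1 → Q v' = 1 → Q w = 1 → v ≠ w → v' ≠ w → bb Q v w = 0 →
      bb Q v' w = 0 → wd Q v w ∈ U → wd Q v' w ∈ U := by
    intro v v' w hv hv' hw hvw hv'w h1 h2 h3
    by_cases hvv : v = v'
    · rw [← hvv]; exact h3
    rcases z01 (bb Q v v') with h4 | h4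
    · -- an intermediate vector
      obtain ⟨u0, hu1, hu2⟩ := ex2 hnd (ne0 hv) (ne0 hv') hvv 1 1
      obtain ⟨u1, hu3, hu4, hu5⟩ : ∃ u, bb Q v u = 1 ∧ bb Q v' u = 1 ∧ bb Q w u = 0 := by
        by_contra hcon
        push Not at hcon
        have key : ∀ u, bb Q v u = 1 → bb Q v' u = 1 → bb Q w u = 1 :=
          fun u a b => zne' (hcon u a b)
        obtain ⟨c, d, hcd⟩ := span2 hnd (ne0 hv) (ne0 hv') hvv (w := w) (by
          intro t ht1 ht2
          have h5 := key (u0 + t) (by rw [bb_add_right, hu1, ht1, add_zero])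
            (by rw [bb_add_right, hu2, ht2, add_zero])
          rw [bb_add_right, key u0 hu1 hu2] at h5
          exact add_left_cancel (h5.trans (add_zero 1).symm))
        rcases z01 c with hc | hc <;> rcases z01 d with hd | hd <;> rw [hc, hd] at hcd
        · rw [zero_smul, zero_smul, add_zero] at hcd
          exact ne0 hw hcd
        · rw [zero_smul, one_smul, zero_add] at hcd
          exact hv'w hcd.symm
        · rw [zero_smul, one_smul, add_zero] at hcd
          exact hvw hcd.symm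
        · rw [one_smul, one_smul] at hcd
          rw [hcd, Q_add, hv, hv', h4] at hw
          exact c01 hw
      obtain ⟨u, hu, a1, a2, a3⟩ : ∃ u, Q u = 1 ∧ bb Q v u = 1 ∧ bb Q v' u = 1 ∧
          bb Q w u = 0 := by
        rcases z01 (Q u1) with h5 | h5
        · refine ⟨u1 + w, ?_, ?_, ?_, ?_⟩
          · rw [Q_add, h5, hw, bb_comm, hu5]; rfl
          · rw [bb_add_right, hu3, h1, add_zero]
          · rw [bb_add_right, hu4, h2, add_zero]
          · rw [bb_add_right, hu5, bb_self, add_zero]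
        · exact ⟨u1, h5, hu3, hu4, hu5⟩
      have h6 := move u v w hu a1 a3 h3
      exact move v' u w hv' (by rw [bb_comm]; exact a2) (by rw [bb_comm]; exact h2) h6
    · exact move v' v w hv' h4 (by rw [bb_comm]; exact h2) h3
  -- all orthogonal pairs
  have S5 : ∀ w, Q w = 1 → ∃ v, Q v = 1 ∧ v ≠ w ∧ bb Q v w = 0 ∧ wd Q v w ∈ U := by
    refine chain hnd hn ?_ hw0 ⟨v0, hv0, hne0, hb0, hU0⟩
    rintro w w1 hw hw1 hww ⟨v, hv, h1, h2, h3⟩
    have hne : w ≠ w1 := by
      rintro rfl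
      rw [bb_self] at hww
      exact c01 hww
    obtain ⟨v1, hv1, h4, h5⟩ := N2 hnd hn (ne0 hw) (ne0 hw1) hne 0 0
    have n1 : v1 ≠ w := by
      rintro rfl
      rw [bb_comm, hww] at h5
      exact c01 h5.symm
    have n2 : v1 ≠ w1 := by
      rintro rfl
      rw [hww] at h4
      exact c01 h4.symm
    have h6 := S2 v v1 w hv hv1 hw h1 n1 h2 (by rw [bb_comm]; exact h4) h3
    rw [wd_comm] at h6
    have h7 := S2 w w1 v1 hw hw1 hv1 (Ne.symm n1) (Ne.symm n2) h4 h5 h6
    rw [wd_comm] at h7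
    exact ⟨v1, hv1, n2, by rw [bb_comm]; exact h5, h7⟩
  have S6 : ∀ v w, Q v = 1 → Q w = 1 → bb Q v w = 0 → wd Q v w ∈ U := by
    intro v w hv hw hvw
    by_cases hne : v = w
    · rw [hne, wd_self]; exact U.zero_mem
    · obtain ⟨v', hv', h1, h2, h3⟩ := S5 w hw
      exact S2 v' v w hv' hv hw h1 hne h2 hvw h3
  have S7 : ∀ u z, Q u = 1 → bb Q u z = 0 → wd Q u z ∈ U := by
    intro u z hu huz
    rcases z01 (Q z) with h1 | h1
    · have h2 := S6 u (z + u) hu (by rw [Q_add, h1, hu, bb_comm, huz]; rfl)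
        (by rw [bb_add_right, huz, bb_self, add_zero])
      rwa [wd_add_right, wd_self, add_zero] at h2
    · exact S6 u z hu h1 huz
  obtain ⟨w1, hw1, hb1⟩ := N1 hnd hn (ne0 hv0) 1
  refine ⟨wd Q v0 w1, fun B hB => ?_⟩
  set W := U ⊔ Submodule.span (ZMod 2) {wd Q v0 w1} with hW
  have hUW : U ≤ W := le_sup_left
  have heW : wd Q v0 w1 ∈ W := le_sup_right (α := Submodule (ZMod 2) (V →ₗ[ZMod 2] V))
    (Submodule.mem_span_singleton_self _)
  have S8a : ∀ u, Q u = 1 → ∃ z, bb Q u z = 1 ∧ wd Q u z ∈ W := by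
    refine chain hnd hn ?_ hv0 ⟨w1, hb1, heW⟩
    rintro u u' hu hu' huu ⟨z, hz, hzW⟩
    refine ⟨u, by rw [bb_comm]; exact huu, ?_⟩
    have h1 := hUW (S7 u (z + u') hu (by rw [bb_add_right, hz, huu]; rfl))
    rw [wd_add_right] at h1
    have h2 := W.sub_mem h1 hzW
    rw [add_sub_cancel_left, wd_comm] at h2
    exact h2
  have S8 : ∀ u z, Q u = 1 → wd Q u z ∈ W := by
    intro u z hu
    rcases z01 (bb Q u z) with h1 | h1
    · exact hUW (S7 u z hu h1)
    · obtain ⟨z', hz', h2⟩ := S8a u hu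
      have h3 := hUW (S7 u (z' + z) hu (by rw [bb_add_right, hz', h1]; rfl))
      rw [wd_add_right] at h3
      have h4 := W.sub_mem h3 h2
      rwa [add_sub_cancel_left] at h4
  have S9 : ∀ x y, wd Q x y ∈ W := by
    intro x y
    rcases spanN hnd hn x with h1 | ⟨u, u', h1, h2, h3⟩
    · rw [h1, wd_comm, wd_zero_right]; exact W.zero_mem
    · rw [h3, wd_comm, wd_add_right]
      refine W.add_mem ?_ ?_
      · rw [wd_comm]; exact S8 u y h1
      · rw [wd_comm]; exact S8 u' y h2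
  exact genW hnd S9 (finrank (ZMod 2) V) B hB (by omega)

end main

/-- JOB OI-LARGE. -/
theorem main : Pool.Agent.Q45.OI.Large := by
  intro V _ _ _ Q hn hnd Γ hΓ
  refine ⟨p_irr hnd hn Γ hΓ, p_scal hnd hn Γ hΓ, ?_⟩
  intro β hβ1 hβ2 hβ3 U hUsk hU
  -- the form is the polar form
  have hsym : ∀ x y, β x y = β y x := by
    intro x y
    have h := hβ1 (x + y)
    simp only [map_add, LinearMap.add_apply, hβ1, zero_add, add_zero] at h
    linear_combination h - zadd (β y x)
  have hN : ∀ v, Q v = 1 → ∀ y, β v y = bb Q v y := by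
    intro v hv
    obtain ⟨t, ht, ht'⟩ := hΓ v hv
    have key : ∀ x y, bb Q x v * β v y = bb Q y v * β v x := by
      intro x y
      have h := hβ3 t ht x y
      rw [ht', ht'] at h
      simp only [map_add, LinearMap.add_apply, map_smul, LinearMap.smul_apply, smul_eq_mul, hβ1,
        mul_zero, add_zero] at h
      change polar Q x v * β v y = polar Q y v * β v x
      linear_combination h - polar Q y v * hsym x v - zadd (polar Q y v * β v x)
    obtain ⟨x, hx⟩ := ex1 (Q := Q) hnd (ne0 hv)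
    rw [bb_comm] at hx
    have h5 : β v x = 1 := by
      by_contra h
      have h6 := zne h
      refine ne0 hv (hβ2 v fun y => ?_)
      have h7 := key x y
      rwa [hx, h6, one_mul, mul_zero] at h7
    intro y
    have h7 := key x y
    rw [hx, h5, one_mul, mul_one] at h7
    rw [h7, bb_comm]
  have hβ : ∀ x y, β x y = bb Q x y := by
    intro x y
    rcases spanN (Q := Q) hnd hn x with h1 | ⟨u, u', h1, h2, h3⟩
    · rw [h1, map_zero, LinearMap.zero_apply, bb_zero_left]
    · rw [h3, map_add, LinearMap.add_apply, bb_add_left, hN u h1, hN u' h2]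
  by_cases hsc : ∀ A ∈ U, A = 0 ∨ A = 1
  · exact Or.inl hsc
  · right
    push Not at hsc
    obtain ⟨A, hA, hA0, hA1⟩ := hsc
    obtain ⟨e, he⟩ := p_skew (Q := Q) hnd hn Γ hΓ U (fun A hA v => by
      rw [← hβ]; exact hUsk hA v) hU A hA hA0 hA1
    have hle : skewEnd β ≤ U ⊔ Submodule.span (ZMod 2) {e} := fun B hB => he B fun v => by
      rw [← hβ]; exact hB v
    refine (Submodule.finrank_mono hle).trans ?_
    refine (Submodule.finrank_add_le_finrank_add_finrank _ _).trans ?_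
    have := finrank_span_le_card (R := ZMod 2) ({e} : Set (V →ₗ[ZMod 2] V))
    simp only [Set.toFinset_singleton, Finset.card_singleton] at this
    omega

end Pool.Agent.Q45.OI.JLARGE
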